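import Mathlib

set_option autoImplicit false

set_option linter.unusedSectionVars false

/-!
# Complementary signatures are weakly c-Wilf-equivalent

For every signature `σ` and every `n ≥ 1` with `n ≢ 2 (mod 4)` the number of cyclic permutations in
the `σ`-class is the number of cyclic permutations in the class of the complementary signature.

Proof.  Fix a partition of the positions into consecutive blocks.  For `n ≢ 2 (mod 4)` the cyclic
permutations which increase on every block and those which decrease on every block are both in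
bijection (up to the choice of a starting point) with the primitive words with the content given by
the sizes of the blocks: the word lists the blocks met by the orbit, and the permutation is
recovered by ordering the rotations of the word lexicographically, or in the alternating
lexicographic order.  By inclusion-exclusion the number of cyclic permutations with descent set `D`
is the number of those with ascent set `D`.
-/

namespace Pool.Agent.Helper178.CyclicComplement

open Equiv

/-- The permutation `π` consists of a single `n`-cycle: any two points are in the same cycle. -/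
def Cyclic {n : ℕ} (π : Perm (Fin n)) : Prop := ∀ x y : Fin n, π.SameCycle x y

/-- `e` is a `σ`-segmentation of `π` (positions and values are numbered from `0`): the `i`-th block
consists of the positions `x` with `e i ≤ x < e (i + 1)`, and `π` is increasing on it if `σ i = true`
(the sign `+`) and decreasing if `σ i = false` (the sign `-`). -/
def IsSegmentation {k n : ℕ} (σ : Fin k → Bool) (π : Perm (Fin n)) (e : Fin (k + 1) → ℕ) : Prop :=
  Monotone e ∧ e 0 = 0 ∧ e (Fin.last k) = n ∧
    ∀ i : Fin k, ∀ x y : Fin n, e i.castSucc ≤ x → x < y → (y : ℕ) < e i.succ →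
      if σ i = true then π x < π y else π y < π x

/-- The set `C^σ_n` of the cyclic permutations which have a `σ`-segmentation. -/
def cyclicClass {k : ℕ} (σ : Fin k → Bool) (n : ℕ) : Set (Perm (Fin n)) :=
  {π | Cyclic π ∧ ∃ e, IsSegmentation σ π e}

/-- The complementary signature. -/
def comp {k : ℕ} (σ : Fin k → Bool) : Fin k → Bool := fun i => !(σ i)

section core

variable {n : ℕ} [NeZero n]

/-- `π` is increasing (`s = 1`) or decreasing (`s = -1`) on the fibres of `b`. -/
def Good (s : ℤ) (b : Fin n → ℕ) (π : Perm (Fin n)) : Prop :=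
  ∀ x y : Fin n, x < y → b x = b y → s * (π x : ℕ) < s * (π y : ℕ)

/-- The rotation key of a word. -/
def key (s : ℤ) (w : ZMod n → ℕ) (i : ZMod n) : Lex (ℕ → ℤ) :=
  toLex fun t : ℕ => s ^ t * (w (i + t) : ℤ)

/-- The permutation with the orbit `f 0, f 1, ...`. -/
def perm (f : ZMod n ≃ Fin n) : Perm (Fin n) := f.symm.trans ((Equiv.addRight 1).trans f)

theorem perm_apply (f : ZMod n ≃ Fin n) (i : ZMod n) : perm f (f i) = f (i + 1) := by
  simp [perm]

theorem perm_pow (f : ZMod n ≃ Fin n) (i : ZMod n) (t : ℕ) : (perm f ^ t) (f i) = f (i + t) := by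
  induction t with
  | zero => simp
  | succ t ih =>
    rw [pow_succ', Perm.mul_apply, ih, perm_apply]
    push_cast
    rw [add_assoc]

theorem perm_cyclic (f : ZMod n ≃ Fin n) : Cyclic (perm f) := by
  intro x y
  obtain ⟨i, rfl⟩ := f.surjective x
  obtain ⟨j, rfl⟩ := f.surjective y
  refine ⟨((j - i).val : ℤ), ?_⟩
  rw [zpow_natCast, perm_pow]
  simp

theorem cyc_pow {π : Perm (Fin n)} (h : Cyclic π) (x : Fin n) (a b : ℕ) :
    (π ^ a) x = (π ^ b) x ↔ a ≡ b [MOD n] := by
  have hc : π.IsCycleOn ((Finset.univ : Finset (Fin n)) : Set (Fin n)) := by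
    refine ⟨?_, fun x _ y _ => h x y⟩
    simp
  have := hc.pow_apply_eq_pow_apply (Finset.mem_univ x) (m := a) (n := b)
  simpa using this

/-- The orbit of `x` as a bijection. -/
noncomputable def orb {π : Perm (Fin n)} (h : Cyclic π) (x : Fin n) : ZMod n ≃ Fin n :=
  Equiv.ofBijective (fun i : ZMod n => (π ^ i.val) x) (by
    rw [Fintype.bijective_iff_injective_and_card]
    refine ⟨?_, by rw [ZMod.card, Fintype.card_fin]⟩
    intro i j hij
    have := (cyc_pow h x _ _).1 hij
    have hi := ZMod.val_lt i
    have hj := ZMod.val_lt j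
    have := Nat.ModEq.eq_of_lt_of_lt this hi hj
    exact ZMod.val_injective n this)

theorem orb_apply {π : Perm (Fin n)} (h : Cyclic π) (x : Fin n) (i : ZMod n) :
    orb h x i = (π ^ i.val) x := rfl

theorem perm_orb {π : Perm (Fin n)} (h : Cyclic π) (x : Fin n) : perm (orb h x) = π := by
  ext y
  obtain ⟨i, rfl⟩ := (orb h x).surjective y
  rw [perm_apply, orb_apply, orb_apply, ← Perm.mul_apply, ← pow_succ']
  congr 1
  rw [cyc_pow h]
  rw [← ZMod.natCast_eq_natCast_iff]
  simp

theorem orb_zero {π : Perm (Fin n)} (h : Cyclic π) (x : Fin n) : orb h x 0 = x := by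
  simp [orb_apply]

theorem ext_of_perm {f g : ZMod n ≃ Fin n} (h : perm f = perm g) (h0 : f 0 = g 0) : f = g := by
  ext i
  have h1 := perm_pow f 0 i.val
  have h2 := perm_pow g 0 i.val
  simp only [zero_add, ZMod.natCast_val, ZMod.cast_id', id_eq] at h1 h2
  rw [← h1, ← h2, h, h0]

theorem key_lt (s : ℤ) (w : ZMod n → ℕ) (i j : ZMod n) : key s w i < key s w j ↔
    ∃ t : ℕ, (∀ u < t, s ^ u * (w (i + u) : ℤ) = s ^ u * (w (j + u) : ℤ)) ∧
      s ^ t * (w (i + t) : ℤ) < s ^ t * (w (j + t) : ℤ) := Iff.rfl

theorem key_le_head (s : ℤ) (w : ZMod n → ℕ) (i j : ZMod n) (h : key s w i < key s w j) :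
    w i ≤ w j := by
  obtain ⟨t, h1, h2⟩ := (key_lt s w i j).1 h
  rcases Nat.eq_zero_or_pos t with rfl | ht
  · simp at h2
    exact h2.le
  · have := h1 0 ht
    simp at this
    exact this.le

theorem pow_sign {s : ℤ} (hs : s = 1 ∨ s = -1) (t : ℕ) : s ^ t = 1 ∨ s ^ t = -1 := by
  rcases hs with rfl | rfl
  · simp
  · exact neg_one_pow_eq_or ℤ t

theorem key_inj {s : ℤ} (hs : s = 1 ∨ s = -1) {w : ZMod n → ℕ}
    (hw : ∀ i j : ZMod n, (∀ t : ℕ, w (i + t) = w (j + t)) → i = j) :
    Function.Injective (key s w) := by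
  intro i j h
  refine hw i j fun t => ?_
  have h1 : s ^ t * (w (i + t) : ℤ) = s ^ t * (w (j + t) : ℤ) :=
    congrFun (show (fun t : ℕ => s ^ t * (w (i + t) : ℤ)) = fun t : ℕ => s ^ t * (w (j + t) : ℤ)
      from h) t
  rcases pow_sign hs t with h2 | h2 <;> rw [h2] at h1 <;> omega

/-- The rotation keys order the orbit. -/
theorem lt_of_key {s : ℤ} (hs : s = 1 ∨ s = -1) {b : Fin n → ℕ} (hb : Monotone b)
    {f : ZMod n ≃ Fin n} (hg : Good s b (perm f)) {i j : ZMod n}
    (h : key s (b ∘ f) i < key s (b ∘ f) j) : f i < f j := by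
  obtain ⟨t, h1, h2⟩ := (key_lt s _ i j).1 h
  have key : ∀ u, u ≤ t → s ^ u * ((f (i + u) : Fin n) : ℕ) < s ^ u * ((f (j + u) : Fin n) : ℕ) := by
    intro u hu
    induction hu using Nat.decreasingInduction with
    | self =>
      simp only [Function.comp] at h2
      rcases pow_sign hs t with h3 | h3
      · rw [h3] at h2 ⊢
        have h4 : b (f (i + t)) < b (f (j + t)) := by omega
        have h5 : f (i + t) < f (j + t) := by
          by_contra hc
          exact absurd (hb (not_lt.1 hc)) (not_le.2 h4)
        have h6 : (f (i + t) : ℕ) < f (j + t) := h5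
        omega
      · rw [h3] at h2 ⊢
        have h4 : b (f (j + t)) < b (f (i + t)) := by omega
        have h5 : f (j + t) < f (i + t) := by
          by_contra hc
          exact absurd (hb (not_lt.1 hc)) (not_le.2 h4)
        have h6 : (f (j + t) : ℕ) < f (i + t) := h5
        omega
    | of_succ u hu ih =>
      have hu' := h1 u hu
      simp only [Function.comp] at hu'
      have e1 : f (i + (u + 1 : ℕ)) = perm f (f (i + u)) := by
        rw [perm_apply]; push_cast; rw [add_assoc]
      have e2 : f (j + (u + 1 : ℕ)) = perm f (f (j + u)) := by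
        rw [perm_apply]; push_cast; rw [add_assoc]
      rw [e1, e2, pow_succ] at ih
      set x := f (i + u)
      set y := f (j + u)
      have hbe : b x = b y := by
        rcases pow_sign hs u with h3 | h3 <;> rw [h3] at hu' <;> omega
      have hg1 := hg x y
      have hg2 := hg y x
      rcases lt_trichotomy x y with hxy | hxy | hxy
      · have h7 := hg1 hxy hbe
        have h8 : (x : ℕ) < y := hxy
        rcases pow_sign hs u with h3 | h3
        · rw [h3]; omega
        · exfalso
          rw [h3] at ih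
          nlinarith
      · exfalso
        rw [hxy] at ih
        exact lt_irrefl _ ih
      · have h7 := hg2 hxy hbe.symm
        have h8 : (y : ℕ) < x := hxy
        rcases pow_sign hs u with h3 | h3
        · exfalso
          rw [h3] at ih
          nlinarith
        · rw [h3]; omega
  have := key 0 (Nat.zero_le _)
  simpa using this

/-- One step of the comparison of the orbit with its shift by `d`. -/
theorem step {s : ℤ} (hs : s = 1 ∨ s = -1) {b : Fin n → ℕ}
    {f : ZMod n ≃ Fin n} (hg : Good s b (perm f)) {d : ZMod n} (hd : d ≠ 0)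
    (hw : ∀ x, b (f x) = b (f (x + d))) (x : ZMod n) :
    (f (x + 1) < f (x + 1 + d)) ↔ ((f x < f (x + d)) ↔ s = 1) := by
  have hne : f x ≠ f (x + d) := fun h => hd (by simpa using f.injective h)
  have hne' : f (x + 1) ≠ f (x + 1 + d) := fun h => hd (by simpa using f.injective h)
  have e : x + 1 + d = x + d + 1 := by ring
  have g1 := hg (f x) (f (x + d))
  have g2 := hg (f (x + d)) (f x)
  rw [perm_apply, perm_apply, ← e] at g1 g2
  have hw1 := hw x
  rcases lt_or_gt_of_ne hne with h | h
  · have g3 := g1 h hw1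
    rcases hs with rfl | rfl
    · have : (f (x + 1) : ℕ) < f (x + 1 + d) := by omega
      simp only [h, iff_true]
      exact this
    · have : (f (x + 1 + d) : ℕ) < f (x + 1) := by omega
      simp only [h, true_iff]
      constructor
      · intro h4
        have : (f (x + 1) : ℕ) < f (x + 1 + d) := h4
        omega
      · intro h4; norm_num at h4
  · have g3 := g2 h hw1.symm
    have h5 : ¬ f x < f (x + d) := not_lt.2 h.le
    rcases hs with rfl | rfl
    · have : (f (x + 1 + d) : ℕ) < f (x + 1) := by omega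
      simp only [h5, iff_true, iff_false]
      intro h4
      have : (f (x + 1) : ℕ) < f (x + 1 + d) := h4
      omega
    · have : (f (x + 1) : ℕ) < f (x + 1 + d) := by omega
      simp only [h5, false_iff]
      constructor
      · intro _; norm_num
      · intro _; exact this

theorem step_even {s : ℤ} (hs : s = 1 ∨ s = -1) {b : Fin n → ℕ}
    {f : ZMod n ≃ Fin n} (hg : Good s b (perm f)) {d : ZMod n} (hd : d ≠ 0)
    (hw : ∀ x, b (f x) = b (f (x + d))) (x : ZMod n) (m : ℕ) :
    (f (x + (2 * m : ℕ)) < f (x + (2 * m : ℕ) + d)) ↔ (f x < f (x + d)) := by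
  induction m with
  | zero => simp
  | succ m ih =>
    have e : x + ((2 * (m + 1) : ℕ) : ZMod n) = x + ((2 * m : ℕ) : ZMod n) + 1 + 1 := by
      push_cast; ring
    rw [e, step hs hg hd hw, step hs hg hd hw, ih]
    tauto

theorem step_one {b : Fin n → ℕ}
    {f : ZMod n ≃ Fin n} (hg : Good 1 b (perm f)) {d : ZMod n} (hd : d ≠ 0)
    (hw : ∀ x, b (f x) = b (f (x + d))) (x : ZMod n) (m : ℕ) :
    (f (x + (m : ℕ)) < f (x + (m : ℕ) + d)) ↔ (f x < f (x + d)) := by
  induction m with
  | zero => simp
  | succ m ih =>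
    have e : x + ((m + 1 : ℕ) : ZMod n) = x + ((m : ℕ) : ZMod n) + 1 := by
      push_cast; ring
    rw [e, step (Or.inl rfl) hg hd hw, ih]
    tauto

theorem no_inv (f : ZMod n ≃ Fin n) {d : ZMod n} (hd : d ≠ 0)
    (h : ∀ x, (f (x + d) < f (x + d + d)) ↔ (f x < f (x + d))) : False := by
  classical
  by_cases hx : ∃ x, f x < f (x + d)
  · obtain ⟨x0, hx0⟩ := hx
    have hne : (Finset.univ.filter fun x : ZMod n => f x < f (x + d)).Nonempty :=
      ⟨x0, by simp [hx0]⟩
    obtain ⟨x, hx1, hx2⟩ := Finset.exists_max_image _ (fun x => f x) hne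
    simp only [Finset.mem_filter, Finset.mem_univ, true_and] at hx1 hx2
    have := hx2 (x + d) ((h x).2 hx1)
    exact absurd hx1 (not_lt.2 this)
  · push Not at hx
    obtain ⟨x, -, hx2⟩ := Finset.exists_min_image (Finset.univ : Finset (ZMod n)) (fun x => f x)
      ⟨0, Finset.mem_univ _⟩
    have h1 := hx x
    have h2 := hx2 (x + d) (Finset.mem_univ _)
    have h3 := f.injective (le_antisymm h1 h2)
    exact hd (by simpa using h3)

/-- The words are primitive. -/
theorem primitive {s : ℤ} (hs : s = 1 ∨ (s = -1 ∧ n % 4 ≠ 2)) {b : Fin n → ℕ}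
    {f : ZMod n ≃ Fin n} (hg : Good s b (perm f)) (i j : ZMod n)
    (hij : ∀ t : ℕ, b (f (i + t)) = b (f (j + t))) : i = j := by
  by_contra hne
  have hs' : s = 1 ∨ s = -1 := by rcases hs with h | h <;> simp [h]
  have hd : j - i ≠ 0 := fun h => hne (sub_eq_zero.1 h).symm
  set d := j - i with hdd
  have hw : ∀ x, b (f x) = b (f (x + d)) := by
    intro x
    have := hij (x - i).val
    simp only [ZMod.natCast_val, ZMod.cast_id', id_eq] at this
    have e1 : i + (x - i) = x := by ring
    have e2 : j + (x - i) = x + d := by rw [hdd]; ring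
    rwa [e1, e2] at this
  have h2d : d + d = 0 := by
    by_contra h2
    have hw2 : ∀ x, b (f x) = b (f (x + (d + d))) := by
      intro x
      rw [hw x, hw (x + d), add_assoc]
    refine no_inv f h2 fun x => ?_
    have := step_even hs' hg h2 hw2 x d.val
    have e : ((2 * d.val : ℕ) : ZMod n) = d + d := by
      push_cast
      rw [ZMod.natCast_val, ZMod.cast_id', id_eq]
      ring
    rwa [e] at this
  rcases hs with rfl | ⟨rfl, h4⟩
  · refine no_inv f hd fun x => ?_
    have := step_one hg hd hw x d.val
    rwa [ZMod.natCast_val, ZMod.cast_id', id_eq] at this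
  · have hv : n ∣ 2 * d.val := by
      rw [← ZMod.natCast_eq_zero_iff]
      push_cast
      rw [ZMod.natCast_val, ZMod.cast_id', id_eq]
      linear_combination h2d
    have hlt := ZMod.val_lt d
    have hpos : 0 < d.val := by
      rcases Nat.eq_zero_or_pos d.val with h | h
      · exact absurd ((ZMod.val_eq_zero d).1 h) hd
      · exact h
    obtain ⟨c, hc⟩ := hv
    have hc1 : c = 1 := by
      have : c < 2 := by nlinarith
      have : c ≠ 0 := by rintro rfl; omega
      omega
    subst hc1
    obtain ⟨m, hm⟩ : ∃ m, d.val = 2 * m := ⟨d.val / 2, by omega⟩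
    refine no_inv f hd fun x => ?_
    have := step_even (Or.inr rfl) hg hd hw x m
    rwa [← hm, ZMod.natCast_val, ZMod.cast_id', id_eq] at this

/-- The orbits of the permutations which are increasing or decreasing on the fibres of `b`. -/
def F (s : ℤ) (b : Fin n → ℕ) : Type := {f : ZMod n ≃ Fin n // Good s b (perm f)}

/-- The primitive words with the content of `b`. -/
def W (b : Fin n → ℕ) : Type :=
  {w : ZMod n → ℕ // (∀ i j : ZMod n, (∀ t : ℕ, w (i + t) = w (j + t)) → i = j) ∧
    ∃ e : ZMod n ≃ Fin n, w = b ∘ e}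

theorem eq_of_lt_iff {f g : ZMod n ≃ Fin n} (h : ∀ i j, f i < f j → g i < g j) : f = g := by
  have hm : StrictMono (g ∘ f.symm) := by
    intro x y hxy
    have := h (f.symm x) (f.symm y) (by simpa using hxy)
    exact this
  have hid : StrictMono (id : Fin n → Fin n) := strictMono_id
  have hr : Set.range (g ∘ f.symm) = Set.range (id : Fin n → Fin n) := by
    rw [Set.range_id]
    exact (g.surjective.comp f.symm.surjective).range_eq
  have := hm.range_inj hid |>.1 hr
  ext i
  have h1 := congrFun this (f i)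
  simp at h1
  rw [h1]

/-- The word of an orbit. -/
def toW (s : ℤ) (hs : s = 1 ∨ (s = -1 ∧ n % 4 ≠ 2)) (b : Fin n → ℕ) (f : F s b) : W b :=
  ⟨b ∘ f.1, fun i j hij => primitive hs f.2 i j hij, f.1, rfl⟩

theorem toW_bijective (s : ℤ) (hs : s = 1 ∨ (s = -1 ∧ n % 4 ≠ 2)) {b : Fin n → ℕ}
    (hb : Monotone b) : Function.Bijective (toW s hs b) := by
  classical
  have hs' : s = 1 ∨ s = -1 := by rcases hs with h | h <;> simp [h]
  constructor
  · rintro ⟨f, hf⟩ ⟨g, hg⟩ hfg
    have hw : b ∘ f = b ∘ g := congrArg Subtype.val hfg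
    have hinj : Function.Injective (key s (b ∘ f)) :=
      key_inj hs' fun i j hij => primitive hs hf i j hij
    refine Subtype.ext (eq_of_lt_iff fun i j hij => ?_)
    rcases lt_trichotomy (key s (b ∘ f) i) (key s (b ∘ f) j) with h | h | h
    · rw [hw] at h
      exact lt_of_key hs' hb hg h
    · rw [hinj h] at hij
      exact absurd hij (lt_irrefl _)
    · exact absurd (lt_of_key hs' hb hf h) (not_lt.2 hij.le)
  · rintro ⟨w, hw, e, he⟩
    have hinj := key_inj hs' hw
    let S : Finset (Lex (ℕ → ℤ)) := Finset.univ.image (key s w)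
    have hS : S.card = n := by
      rw [Finset.card_image_of_injective _ hinj, Finset.card_univ, ZMod.card]
    let o := S.orderIsoOfFin hS
    let φ : ZMod n → S := fun i => ⟨key s w i, Finset.mem_image_of_mem _ (Finset.mem_univ i)⟩
    have hφ : Function.Bijective φ := by
      constructor
      · intro i j hij
        exact hinj (congrArg Subtype.val hij)
      · rintro ⟨x, hx⟩
        obtain ⟨i, -, hi⟩ := Finset.mem_image.1 hx
        exact ⟨i, Subtype.ext hi⟩
    let f : ZMod n ≃ Fin n := (Equiv.ofBijective φ hφ).trans o.symm.toEquiv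
    have hf : ∀ i j, f i < f j ↔ key s w i < key s w j := by
      intro i j
      show o.symm (φ i) < o.symm (φ j) ↔ _
      rw [OrderIso.lt_iff_lt]
      exact Iff.rfl
    have hmono : Monotone (b ∘ ((f.symm.trans e : Fin n ≃ Fin n) : Perm (Fin n))) := by
      intro x y hxy
      obtain ⟨i, rfl⟩ := f.surjective x
      obtain ⟨j, rfl⟩ := f.surjective y
      simp only [Function.comp, Equiv.trans_apply, Equiv.symm_apply_apply]
      have h1 : w i = b (e i) := by rw [he]; rfl
      have h2 : w j = b (e j) := by rw [he]; rfl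
      rw [← h1, ← h2]
      rcases hxy.eq_or_lt with h | h
      · rw [f.injective h]
      · exact key_le_head s w i j ((hf i j).1 h)
    have hbf : b ∘ f = w := by
      have h1 : Monotone (b ∘ ((1 : Perm (Fin n)) : Fin n → Fin n)) := hb
      have h2 := Tuple.unique_monotone h1 hmono
      funext i
      have h3 := congrFun h2 (f i)
      simp only [Function.comp, Equiv.trans_apply, Equiv.symm_apply_apply, Perm.one_apply] at h3
      rw [Function.comp, h3, he]
      rfl
    have hgood : Good s b (perm f) := by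
      intro x y hxy hbxy
      obtain ⟨i, rfl⟩ := f.surjective x
      obtain ⟨j, rfl⟩ := f.surjective y
      have hwij : w i = w j := by rw [← hbf]; exact hbxy
      rw [perm_apply, perm_apply]
      obtain ⟨t, h1, h2⟩ := (key_lt s w i j).1 ((hf i j).1 hxy)
      cases t with
      | zero =>
        exfalso
        simp only [pow_zero, one_mul, Nat.cast_zero, add_zero, hwij] at h2
        exact lt_irrefl _ h2
      | succ t =>
        have e1 : ∀ (k : ZMod n) (u : ℕ), k + ((u + 1 : ℕ) : ZMod n) = k + 1 + (u : ZMod n) := by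
          intro k u; push_cast; ring
        have h1' : ∀ u < t, w (i + 1 + u) = w (j + 1 + u) := by
          intro u hu
          have := h1 (u + 1) (by omega)
          rw [e1, e1] at this
          rcases pow_sign hs' (u + 1) with h3 | h3 <;> rw [h3] at this <;> omega
        rw [e1, e1, pow_succ] at h2
        rcases hs' with rfl | rfl
        · have h4 : key 1 w (i + 1) < key 1 w (j + 1) :=
            (key_lt _ _ _ _).2 ⟨t, fun u hu => by rw [h1' u hu], by simpa using h2⟩
          have h5 := (hf _ _).2 h4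
          have h6 : (f (i + 1) : ℕ) < f (j + 1) := h5
          omega
        · have h4 : key (-1) w (j + 1) < key (-1) w (i + 1) :=
            (key_lt _ _ _ _).2 ⟨t, fun u hu => by rw [h1' u hu], by linarith⟩
          have h5 := (hf _ _).2 h4
          have h6 : (f (j + 1) : ℕ) < f (i + 1) := h5
          omega
    exact ⟨⟨f, hgood⟩, Subtype.ext hbf⟩

/-- The orbits are the permutations with a starting point. -/
noncomputable def splitF (s : ℤ) (b : Fin n → ℕ) :
    F s b ≃ {π : Perm (Fin n) // Cyclic π ∧ Good s b π} × Fin n where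
  toFun f := (⟨perm f.1, perm_cyclic f.1, f.2⟩, f.1 0)
  invFun p := ⟨orb p.1.2.1 p.2, by rw [perm_orb]; exact p.1.2.2⟩
  left_inv f := Subtype.ext (ext_of_perm (perm_orb (perm_cyclic f.1) _) (orb_zero (perm_cyclic f.1) _))
  right_inv p := Prod.ext (Subtype.ext (perm_orb p.1.2.1 _)) (orb_zero p.1.2.1 _)

/-- The number of cyclic permutations which are increasing on the fibres of `b` is the number of
those which are decreasing on the fibres of `b`. -/
theorem good_card (hn : n % 4 ≠ 2) {b : Fin n → ℕ} (hb : Monotone b) :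
    Nat.card {π : Perm (Fin n) // Cyclic π ∧ Good 1 b π} =
      Nat.card {π : Perm (Fin n) // Cyclic π ∧ Good (-1) b π} := by
  have h1 := Nat.card_congr (Equiv.ofBijective _ (toW_bijective (n := n) 1 (Or.inl rfl) hb))
  have h2 := Nat.card_congr (Equiv.ofBijective _ (toW_bijective (n := n) (-1) (Or.inr ⟨rfl, hn⟩) hb))
  have h3 := Nat.card_congr (splitF 1 b)
  have h4 := Nat.card_congr (splitF (-1) b)
  rw [Nat.card_prod] at h3 h4
  have h5 : Nat.card (Fin n) = n := by simp
  rw [h5] at h3 h4
  have h6 : 0 < n := Nat.pos_of_ne_zero (NeZero.ne n)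
  refine Nat.eq_of_mul_eq_mul_right h6 ?_
  rw [← h3, ← h4, h1, h2]

end core

section blocks

variable {n : ℕ}

/-- The descent set. -/
def des (π : Perm (Fin n)) : Finset ℕ :=
  (Finset.range (n - 1)).filter fun i => ∃ (h : i < n) (h' : i + 1 < n), π ⟨i + 1, h'⟩ < π ⟨i, h⟩

/-- The ascent set. -/
def asc (π : Perm (Fin n)) : Finset ℕ :=
  (Finset.range (n - 1)).filter fun i => ∃ (h : i < n) (h' : i + 1 < n), π ⟨i, h⟩ < π ⟨i + 1, h'⟩

theorem mem_asc_iff (π : Perm (Fin n)) (i : ℕ) (hi : i < n - 1) : i ∈ asc π ↔ i ∉ des π := by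
  have h : i < n := by omega
  have h' : i + 1 < n := by omega
  have hne : π ⟨i, h⟩ ≠ π ⟨i + 1, h'⟩ := fun e => by
    have := π.injective e
    simp at this
  simp only [asc, des, Finset.mem_filter, Finset.mem_range, hi, h, h', true_and, exists_true_left,
    not_lt]
  exact ⟨fun e => e.le, fun e => lt_of_le_of_ne e hne⟩

/-- The number of the block of `x`, when the blocks end at the elements of `D`. -/
def blk (D : Finset ℕ) (x : Fin n) : ℕ := (D.filter (· < (x : ℕ))).card

theorem blk_mono (D : Finset ℕ) : Monotone (blk (n := n) D) := by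
  intro x y hxy
  refine Finset.card_le_card fun a ha => ?_
  rw [Finset.mem_filter] at ha ⊢
  exact ⟨ha.1, lt_of_lt_of_le ha.2 hxy⟩

theorem blk_eq_iff (D : Finset ℕ) (x y : Fin n) (hxy : x ≤ y) :
    blk D x = blk D y ↔ ∀ a ∈ D, ¬ ((x : ℕ) ≤ a ∧ a < y) := by
  have hsub : D.filter (· < (x : ℕ)) ⊆ D.filter (· < (y : ℕ)) := by
    intro a ha
    rw [Finset.mem_filter] at ha ⊢
    exact ⟨ha.1, lt_of_lt_of_le ha.2 hxy⟩
  constructor
  · intro h a ha hc
    have := Finset.eq_of_subset_of_card_le hsub h.ge
    have h1 : a ∈ D.filter (· < (y : ℕ)) := Finset.mem_filter.2 ⟨ha, hc.2⟩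
    rw [← this, Finset.mem_filter] at h1
    omega
  · intro h
    refine congrArg Finset.card (Finset.Subset.antisymm hsub fun a ha => ?_)
    rw [Finset.mem_filter] at ha ⊢
    refine ⟨ha.1, ?_⟩
    by_contra hc
    exact h a ha.1 ⟨not_lt.1 hc, ha.2⟩

theorem good_iff (s : ℤ) (D : Finset ℕ) (π : Perm (Fin n)) : Good s (blk D) π ↔
    ∀ i (h : i < n) (h' : i + 1 < n), i ∉ D → s * (π ⟨i, h⟩ : ℕ) < s * (π ⟨i + 1, h'⟩ : ℕ) := by
  constructor
  · intro hg i h h' hi
    refine hg _ _ (by simp) ?_
    rw [blk_eq_iff _ _ _ (by simp)]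
    rintro a ha ⟨h1, h2⟩
    simp only at h1 h2
    have : a = i := by omega
    exact hi (this ▸ ha)
  · intro hc x y hxy hb
    rw [blk_eq_iff _ _ _ hxy.le] at hb
    obtain ⟨x, hx⟩ := x
    obtain ⟨y, hy⟩ := y
    simp only [Fin.mk_lt_mk] at hxy hb
    obtain ⟨m, rfl⟩ : ∃ m, y = x + 1 + m := ⟨y - (x + 1), by omega⟩
    clear hxy
    induction m with
    | zero =>
      exact hc x hx hy fun hD => hb x hD ⟨le_rfl, by omega⟩
    | succ m ih =>
      have h1 : x + 1 + m < n := by omega
      have h2 := ih h1 (fun a ha hh => hb a ha ⟨hh.1, by have := hh.2; omega⟩)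
      have h3 := hc (x + 1 + m) h1 hy fun hD => hb _ hD ⟨by omega, by omega⟩
      exact h2.trans h3

theorem good_one_iff {D : Finset ℕ} (π : Perm (Fin n)) :
    Good 1 (blk D) π ↔ des π ⊆ D := by
  rw [good_iff]
  constructor
  · intro h i hi
    rw [des, Finset.mem_filter] at hi
    obtain ⟨-, h1, h2, h3⟩ := hi
    by_contra hc
    have := h i h1 h2 hc
    have h4 : (π ⟨i + 1, h2⟩ : ℕ) < π ⟨i, h1⟩ := h3
    omega
  · intro h i h1 h2 hi
    have h3 : i ∉ des π := fun hc => hi (h hc)
    rw [← mem_asc_iff π i (by omega), asc, Finset.mem_filter] at h3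
    obtain ⟨-, _, _, h4⟩ := h3
    have h5 : (π ⟨i, h1⟩ : ℕ) < π ⟨i + 1, h2⟩ := h4
    omega

theorem good_neg_iff {D : Finset ℕ} (π : Perm (Fin n)) :
    Good (-1) (blk D) π ↔ asc π ⊆ D := by
  rw [good_iff]
  constructor
  · intro h i hi
    rw [asc, Finset.mem_filter] at hi
    obtain ⟨-, h1, h2, h3⟩ := hi
    by_contra hc
    have := h i h1 h2 hc
    have h4 : (π ⟨i, h1⟩ : ℕ) < π ⟨i + 1, h2⟩ := h3
    omega
  · intro h i h1 h2 hi
    have h3 : i ∉ asc π := fun hc => hi (h hc)
    rw [mem_asc_iff π i (by omega), not_not, des, Finset.mem_filter] at h3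
    obtain ⟨-, _, _, h4⟩ := h3
    have h5 : (π ⟨i + 1, h2⟩ : ℕ) < π ⟨i, h1⟩ := h4
    omega

open Classical in
/-- The cyclic permutations with a property. -/
noncomputable def cyc (n : ℕ) (P : Perm (Fin n) → Prop) : Finset (Perm (Fin n)) :=
  Finset.univ.filter fun π => Cyclic π ∧ P π

theorem mem_cyc {P : Perm (Fin n) → Prop} {π : Perm (Fin n)} :
    π ∈ cyc n P ↔ Cyclic π ∧ P π := by
  simp [cyc]

theorem card_subset [NeZero n] (hn : n % 4 ≠ 2) (D : Finset ℕ) :
    (cyc n fun π => des π ⊆ D).card = (cyc n fun π => asc π ⊆ D).card := by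
  classical
  have h := good_card hn (blk_mono (n := n) D)
  simp only [good_one_iff, good_neg_iff] at h
  rw [Nat.card_eq_fintype_card, Nat.card_eq_fintype_card, Fintype.card_subtype,
    Fintype.card_subtype] at h
  unfold cyc
  convert h

theorem card_fiber {g : Perm (Fin n) → Finset ℕ} {S : Finset ℕ → Prop} (R : Finset (Finset ℕ))
    (hR : ∀ π, S (g π) ↔ g π ∈ R) :
    (cyc n fun π => S (g π)).card = ∑ E ∈ R, (cyc n fun π => g π = E).card := by
  rw [Finset.card_eq_sum_card_fiberwise (f := g) (t := R)]
  · refine Finset.sum_congr rfl fun E hE => congrArg Finset.card ?_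
    ext π
    simp only [Finset.mem_filter, mem_cyc, hR]
    constructor
    · rintro ⟨⟨h1, -⟩, h2⟩
      exact ⟨h1, h2⟩
    · rintro ⟨h1, h2⟩
      exact ⟨⟨h1, h2 ▸ hE⟩, h2⟩
  · intro π hπ
    have := mem_cyc.1 (Finset.mem_coe.1 hπ)
    exact Finset.mem_coe.2 ((hR π).1 this.2)

/-- The number of cyclic permutations with descent set `D` is that with ascent set `D`. -/
theorem card_des [NeZero n] (hn : n % 4 ≠ 2) (D : Finset ℕ) :
    (cyc n fun π => des π = D).card = (cyc n fun π => asc π = D).card := by
  classical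
  induction D using Finset.strongInduction with
  | H D ih =>
    have h := card_subset hn D
    rw [card_fiber (g := des) (S := (· ⊆ D)) D.powerset (by simp),
      card_fiber (g := asc) (S := (· ⊆ D)) D.powerset (by simp)] at h
    rw [← Finset.sum_erase_add _ _ (Finset.mem_powerset_self D),
      ← Finset.sum_erase_add D.powerset (fun E => (cyc n fun π => asc π = E).card)
        (Finset.mem_powerset_self D)] at h
    have h2 : ∑ E ∈ D.powerset.erase D, (cyc n fun π => des π = E).card =
        ∑ E ∈ D.powerset.erase D, (cyc n fun π => asc π = E).card := by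
      refine Finset.sum_congr rfl fun E hE => ih E ?_
      rw [Finset.mem_erase, Finset.mem_powerset] at hE
      exact Finset.ssubset_iff_subset_ne.2 ⟨hE.2, hE.1⟩
    omega

/-- `σ` has a segmentation with the descents `D`. -/
def Seg {k : ℕ} (σ : Fin k → Bool) (n : ℕ) (D : Finset ℕ) : Prop :=
  ∃ e : Fin (k + 1) → ℕ, Monotone e ∧ e 0 = 0 ∧ e (Fin.last k) = n ∧
    ∀ i : Fin k, ∀ x : ℕ, e i.castSucc ≤ x → x + 1 < e i.succ →
      if σ i = true then x ∉ D else x ∈ D

theorem seg_iff {k : ℕ} (σ : Fin k → Bool) (π : Perm (Fin n)) :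
    (∃ e, IsSegmentation σ π e) ↔ Seg σ n (des π) := by
  refine exists_congr fun e => ?_
  constructor
  · rintro ⟨h1, h2, h3, h4⟩
    refine ⟨h1, h2, h3, fun i x hx hx' => ?_⟩
    have hn : e i.succ ≤ n := h3 ▸ h1 (Fin.le_last _)
    have ha : x < n := by omega
    have hb : x + 1 < n := by omega
    have h5 := h4 i ⟨x, ha⟩ ⟨x + 1, hb⟩ hx (by simp) hx'
    split_ifs with hσ
    · rw [if_pos hσ] at h5
      intro hc
      rw [des, Finset.mem_filter] at hc
      obtain ⟨-, _, _, h6⟩ := hc
      exact absurd h5 (not_lt.2 h6.le)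
    · rw [if_neg hσ] at h5
      rw [des, Finset.mem_filter, Finset.mem_range]
      exact ⟨by omega, ha, hb, h5⟩
  · rintro ⟨h1, h2, h3, h4⟩
    refine ⟨h1, h2, h3, fun i x y hx hxy hy => ?_⟩
    obtain ⟨x, hxn⟩ := x
    obtain ⟨y, hyn⟩ := y
    simp only [Fin.mk_lt_mk] at hx hxy hy
    obtain ⟨m, rfl⟩ : ∃ m, y = x + 1 + m := ⟨y - (x + 1), by omega⟩
    split_ifs with hσ
    · have key : ∀ u, e i.castSucc ≤ u → ∀ (h5 : u < n) (h6 : u + 1 < n), u + 1 < e i.succ →
          π ⟨u, h5⟩ < π ⟨u + 1, h6⟩ := by
        intro u hu h5 h6 h7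
        have h8 := h4 i u hu h7
        rw [if_pos hσ, ← mem_asc_iff π u (by omega), asc, Finset.mem_filter] at h8
        exact h8.2.2.2
      induction m with
      | zero => exact key x hx hxn hyn hy
      | succ m ih =>
        have h9 : x + 1 + m < n := by omega
        exact (ih h9 (by omega) (by omega)).trans (key (x + 1 + m) (by omega) h9 hyn hy)
    · have key : ∀ u, e i.castSucc ≤ u → ∀ (h5 : u < n) (h6 : u + 1 < n), u + 1 < e i.succ →
          π ⟨u + 1, h6⟩ < π ⟨u, h5⟩ := by
        intro u hu h5 h6 h7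
        have h8 := h4 i u hu h7
        rw [if_neg hσ, des, Finset.mem_filter] at h8
        exact h8.2.2.2
      induction m with
      | zero => exact key x hx hxn hyn hy
      | succ m ih =>
        have h9 : x + 1 + m < n := by omega
        exact (key (x + 1 + m) (by omega) h9 hyn hy).trans (ih h9 (by omega) (by omega))

theorem seg_comp {k : ℕ} (σ : Fin k → Bool) (π : Perm (Fin n)) :
    Seg (comp σ) n (des π) ↔ Seg σ n (asc π) := by
  refine exists_congr fun e => ?_
  refine and_congr_right fun h1 => and_congr_right fun h2 => and_congr_right fun h3 => ?_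
  refine forall_congr' fun i => forall_congr' fun x => forall_congr' fun hx =>
    forall_congr' fun hx' => ?_
  have hn : e i.succ ≤ n := h3 ▸ h1 (Fin.le_last _)
  have h4 := mem_asc_iff π x (by omega)
  cases hσ : σ i <;> simp [comp, hσ, h4]

/-- **Theorem.** -/
theorem main {k : ℕ} (σ : Fin k → Bool) [NeZero n] (hn : n % 4 ≠ 2) :
    Nat.card (cyclicClass σ n) = Nat.card (cyclicClass (comp σ) n) := by
  classical
  have key : ∀ (g : Perm (Fin n) → Finset ℕ), (∀ π, g π ⊆ Finset.range (n - 1)) →
      (cyc n fun π => Seg σ n (g π)).card =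
        ∑ E ∈ (Finset.range (n - 1)).powerset.filter (Seg σ n), (cyc n fun π => g π = E).card := by
    intro g hg
    refine card_fiber (g := g) (S := Seg σ n) _ fun π => ?_
    rw [Finset.mem_filter, Finset.mem_powerset]
    exact ⟨fun h => ⟨hg π, h⟩, fun h => h.2⟩
  have h1 : Nat.card (cyclicClass σ n) = (cyc n fun π => Seg σ n (des π)).card := by
    have : cyclicClass σ n = ↑(cyc n fun π => Seg σ n (des π)) := by
      ext π
      simp only [cyclicClass, Set.mem_ofPred_eq, Finset.mem_coe, mem_cyc, seg_iff]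
    rw [this]
    simp
  have h2 : Nat.card (cyclicClass (comp σ) n) = (cyc n fun π => Seg σ n (asc π)).card := by
    have : cyclicClass (comp σ) n = ↑(cyc n fun π => Seg σ n (asc π)) := by
      ext π
      simp only [cyclicClass, Set.mem_ofPred_eq, Finset.mem_coe, mem_cyc, seg_iff, seg_comp]
    rw [this]
    simp
  rw [h1, h2, key des fun π => Finset.filter_subset _ _, key asc fun π => Finset.filter_subset _ _]
  exact Finset.sum_congr rfl fun E _ => card_des hn E

end blocks

/-- **Theorem.** For every signature `σ` (of any length `k`) and every `n ≥ 1` with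
`n ≢ 2 (mod 4)`, the number of cyclic permutations in the `σ`-class is the number of cyclic
permutations in the class of the complementary signature. -/
theorem result (k : ℕ) (σ : Fin k → Bool) (n : ℕ) (hn : 1 ≤ n) (h4 : n % 4 ≠ 2) :
    Nat.card (cyclicClass σ n) = Nat.card (cyclicClass (comp σ) n) := by
  have : NeZero n := ⟨by omega⟩
  exact main σ h4

end Pool.Agent.Helper178.CyclicComplement
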